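import Pool.Agent.Q255.L2.StmV
import Pool.Agent.Q13.EP.REC

/-!
# Vinogradov mean values of random twists: all mean values, almost surely
-/

set_option autoImplicit false

namespace Pool.Agent.Q184.L2

open Filter Topology MeasureTheory Finset
open Pool.Agent.Q255.IC Pool.Agent.Q255.IR Pool.Agent.Q255.EP Pool.Agent.Q255.L2
open scoped ENNReal

theorem sgn_cm (ω : ℕ → Bool) : Sgn (cm ω) := by
  refine ⟨fun m n hm hn => Pool.Agent.Q13.EP.cm_mul ω (by omega) (by omega), fun n _ => ?_⟩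
  have h := Pool.Agent.Q13.EP.cm_sq ω n
  have h2 : (cm ω n - 1) * (cm ω n + 1) = 0 := by linear_combination h
  rcases mul_eq_zero.1 h2 with h3 | h3
  · exact Or.inl (by linarith)
  · exact Or.inr (by linarith)

open Classical in
/-- the coefficient functions at the level `J` -/
noncomputable def WW (s k J : ℕ) : Finset (ℕ → ℝ) :=
  (((range (2 ^ J + 1)) ×ˢ (range (2 ^ J + 1))).filter
    fun t => t.1 ≤ t.2 ∧ t.2 ^ (2 * s) ≤ 2 ^ J).image fun t => AA s k (Ioc t.1 t.2)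

theorem card_WW (s k J : ℕ) : ((WW s k J).card : ℝ) ≤ Real.exp (2 * Real.log 2 * ((J : ℝ) + 1)) := by
  classical
  have h1 : (WW s k J).card ≤ (2 ^ J + 1) * (2 ^ J + 1) := by
    refine card_image_le.trans ((card_filter_le _ _).trans ?_)
    rw [card_product, card_range]
  have h2 : (2 ^ J + 1 : ℕ) ≤ 2 ^ (J + 1) := by
    have : 1 ≤ 2 ^ J := Nat.one_le_two_pow
    rw [pow_succ]
    omega
  have h3 : Real.exp (2 * Real.log 2 * ((J : ℝ) + 1)) = 2 ^ (J + 1) * 2 ^ (J + 1) := by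
    have h4 : (2 : ℝ) ^ (J + 1) = Real.exp (Real.log 2 * ((J : ℝ) + 1)) := by
      rw [← Real.rpow_natCast, Real.rpow_def_of_pos two_pos]
      push_cast
      rfl
    rw [h4, ← Real.exp_add]
    congr 1
    ring
  rw [h3]
  have h5 : ((WW s k J).card : ℝ) ≤ (((2 ^ J + 1) * (2 ^ J + 1) : ℕ) : ℝ) := by exact_mod_cast h1
  have h6 : (((2 ^ J + 1) * (2 ^ J + 1) : ℕ) : ℝ) ≤ ((2 ^ (J + 1) * 2 ^ (J + 1) : ℕ) : ℝ) := by
    exact_mod_cast Nat.mul_le_mul h2 h2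
  refine h5.trans (h6.trans (le_of_eq ?_))
  push_cast
  rfl

/-- the level of `x` -/
theorem exists_J {x : ℕ} (hx : 1 ≤ x) : ∃ J, x ≤ 2 ^ J ∧ 2 ^ J ≤ 2 * x := by
  refine ⟨Nat.clog 2 x, Nat.le_pow_clog one_lt_two x, ?_⟩
  rcases Nat.lt_or_ge 1 x with h | h
  · have h1 := Nat.pow_pred_clog_lt_self one_lt_two h
    have h2 : 0 < Nat.clog 2 x := Nat.clog_pos one_lt_two h
    have h3 : 2 ^ Nat.clog 2 x = 2 * 2 ^ (Nat.clog 2 x).pred := by
      rw [← pow_succ', Nat.pred_eq_sub_one, Nat.sub_add_cancel h2]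
    omega
  · have : x = 1 := by omega
    subst this
    simp

theorem vmb_aux (h : S_ENG2) (h1 : S_VMA) (ν : Measure (ℕ → Bool)) [IsProbabilityMeasure ν]
    (hν : ∀ ε : ℝ, 0 < ε → ∀ᶠ x : ℕ in atTop, D ν (Nat.primeCounting x) ≤ (x : ℝ) ^ ε)
    (s k : ℕ) (hs : 1 ≤ s) (hk : 1 ≤ k) :
    ∀ᵐ ω ∂ν, ∃ c C : ℝ, 0 < c ∧ ∀ N a b : ℕ, 1 ≤ N → a ≤ b → b ≤ N →
      |JJ (cm ω) s k (Ioc a b) - (s.factorial : ℝ) * ((b : ℝ) - a) ^ s| ≤ C * (N : ℝ) ^ ((s : ℝ) - c) := by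
  classical
  obtain ⟨c, C, hc, hC, H⟩ := h1 s k hs hk
  have hν' : ∀ ε : ℝ, 0 < ε → ∀ᶠ x : ℕ in atTop,
      D ν (Nat.primeCounting x) ≤ (x : ℝ) ^ ((0 : ℝ) + ε) := by
    intro ε hε
    simpa only [zero_add] using hν ε hε
  have hvan : ∀ J, ∀ w ∈ WW s k J, ∀ m, 2 ^ J < m → w m = 0 := by
    intro J w hw m hm
    rw [WW, mem_image] at hw
    obtain ⟨⟨a, b⟩, ht, rfl⟩ := hw
    rw [mem_filter] at ht
    obtain ⟨-, hab, hb⟩ := ht
    refine (H (max b 1) a b (le_max_right _ _) hab (le_max_left _ _)).2.1 m (lt_of_le_of_lt ?_ hm)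
    rcases Nat.lt_or_ge b 1 with h0 | h0
    · rw [max_eq_right h0.le, one_pow]
      exact Nat.one_le_two_pow
    · rw [max_eq_left h0]
      exact hb
  filter_upwards [h ν 0 le_rfl zero_le_one hν' (WW s k) (2 * Real.log 2) hvan (card_WW s k)]
    with ω hω
  have hs0 : (0 : ℝ) < s := by exact_mod_cast hs
  have he0 : 0 < c / (8 * s) := by positivity
  obtain ⟨C2, hC2⟩ := hω (c / (8 * s)) he0
  refine ⟨c / 4, C + |C2| * 2 ^ (c / (8 * s)) * √C, by positivity, ?_⟩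
  intro N a b hN hab hbN
  have hN1 : (1 : ℝ) ≤ N := by exact_mod_cast hN
  have hN0 : (0 : ℝ) < N := by linarith
  obtain ⟨J, hJ1, hJ2⟩ := exists_J (Nat.one_le_pow (2 * s) N hN)
  obtain ⟨G1, -, G3⟩ := H N a b hN hab hbN
  have hb2 : b ^ (2 * s) ≤ 2 ^ J := (Nat.pow_le_pow_left hbN _).trans hJ1
  have hbJ : b < 2 ^ J + 1 := by
    have : b ≤ b ^ (2 * s) := Nat.le_self_pow (by omega) b
    omega
  have hmem : AA s k (Ioc a b) ∈ WW s k J := by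
    rw [WW, mem_image]
    refine ⟨(a, b), ?_, rfl⟩
    rw [mem_filter, mem_product, mem_range, mem_range]
    exact ⟨⟨by show a < 2 ^ J + 1; omega, hbJ⟩, hab, hb2⟩
  have K1 := G3 (cm ω) (2 ^ J) (sgn_cm ω) hJ1
  have K2 := hC2 J _ hmem
  have K3 : √(nn (2 ^ J) (AA s k (Ioc a b))) ≤ √C * (N : ℝ) ^ ((s : ℝ) - c / 2) := by
    refine (Real.sqrt_le_sqrt (G1 (2 ^ J))).trans (le_of_eq ?_)
    rw [Real.sqrt_mul hC, Real.sqrt_eq_rpow ((N : ℝ) ^ _), ← Real.rpow_mul hN0.le]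
    congr 2
    ring
  have K4 : (2 : ℝ) ^ ((0 + c / (8 * s)) * J) ≤ 2 ^ (c / (8 * s)) * (N : ℝ) ^ (c / 4) := by
    have e1 : (2 : ℝ) ^ ((0 + c / (8 * s)) * J) = ((2 : ℝ) ^ J) ^ (c / (8 * s)) := by
      rw [zero_add, ← Real.rpow_natCast, ← Real.rpow_mul two_pos.le, mul_comm]
    have e2 : ((2 : ℝ) ^ J) ≤ 2 * (N : ℝ) ^ (2 * s) := by exact_mod_cast hJ2
    have e3 : ((N : ℝ) ^ (2 * s)) ^ (c / (8 * s)) = (N : ℝ) ^ (c / 4) := by
      rw [← Real.rpow_natCast, ← Real.rpow_mul hN0.le]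
      congr 1
      push_cast
      field_simp
      ring
    rw [e1, ← e3, ← Real.mul_rpow two_pos.le (by positivity)]
    exact Real.rpow_le_rpow (by positivity) e2 he0.le
  have K5 : (N : ℝ) ^ ((s : ℝ) - c) ≤ (N : ℝ) ^ ((s : ℝ) - c / 4) :=
    Real.rpow_le_rpow_of_exponent_le hN1 (by linarith)
  have K6 : (N : ℝ) ^ (c / 4) * (N : ℝ) ^ ((s : ℝ) - c / 2) = (N : ℝ) ^ ((s : ℝ) - c / 4) := by
    rw [← Real.rpow_add hN0]
    congr 1
    ring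
  have K7 : |∑ m ∈ Icc 1 (2 ^ J), AA s k (Ioc a b) m * cm ω m| ≤
      |C2| * 2 ^ (c / (8 * s)) * √C * (N : ℝ) ^ ((s : ℝ) - c / 4) := by
    calc |∑ m ∈ Icc 1 (2 ^ J), AA s k (Ioc a b) m * cm ω m|
        ≤ C2 * (2 : ℝ) ^ ((0 + c / (8 * s)) * J) * √(nn (2 ^ J) (AA s k (Ioc a b))) := K2
      _ ≤ |C2| * (2 : ℝ) ^ ((0 + c / (8 * s)) * J) * √(nn (2 ^ J) (AA s k (Ioc a b))) := by
          gcongr
          exact le_abs_self C2
      _ ≤ |C2| * (2 ^ (c / (8 * s)) * (N : ℝ) ^ (c / 4)) * (√C * (N : ℝ) ^ ((s : ℝ) - c / 2)) := by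
          gcongr
      _ = |C2| * 2 ^ (c / (8 * s)) * √C * ((N : ℝ) ^ (c / 4) * (N : ℝ) ^ ((s : ℝ) - c / 2)) := by
          ring
      _ = _ := by rw [K6]
  calc _ ≤ C * (N : ℝ) ^ ((s : ℝ) - c) + |∑ n ∈ Icc 1 (2 ^ J), AA s k (Ioc a b) n * cm ω n| := K1
    _ ≤ C * (N : ℝ) ^ ((s : ℝ) - c / 4) +
        |C2| * 2 ^ (c / (8 * s)) * √C * (N : ℝ) ^ ((s : ℝ) - c / 4) :=
      add_le_add (mul_le_mul_of_nonneg_left K5 hC) K7
    _ = _ := by ring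

/-- all mean values of the twists, almost surely -/
theorem vmb (h : S_ENG2) (h1 : S_VMA) : S_VMB := by
  intro ν _ hν
  rw [ae_all_iff]
  intro s
  rw [ae_all_iff]
  intro k
  rcases Nat.lt_or_ge s 1 with hs | hs
  · exact Eventually.of_forall fun ω h => absurd h (by omega)
  rcases Nat.lt_or_ge k 1 with hk | hk
  · exact Eventually.of_forall fun ω _ h => absurd h (by omega)
  filter_upwards [vmb_aux h h1 ν hν s k hs hk] with ω hω _ _ using hω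

end Pool.Agent.Q184.L2
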